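import Pool.Agent.Lib.MP_7682a8_an.KB.Iface

/-! Module NLG (helper65): integration of `2 z ∂_z = ∂_t - i ∂_θ` over an annulus. -/

set_option autoImplicit false

open Metric Set MeasureTheory Filter
open scoped Topology

namespace Pool.Agent.Lib.MP_7682a8_an.KB.H65

open Pool.Agent.Lib.MP_7682a8_an.KB

theorem wd_apply (p s v : ℂ) : wd p s v = p * v + s * starRingEnd ℂ v := by
  simp [wd]

theorem nlg : NlgStmt := by
  intro Φ P S ε R hε hεR hΦ hP hS
  set c : ℝ → ℝ → ℂ := fun r θ => circleMap 0 r θ with hc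
  have hcval : ∀ r θ : ℝ, c r θ = (r : ℂ) * Complex.exp (θ * Complex.I) := by
    intro r θ; simp [hc, circleMap]
  have hnorm : ∀ r θ : ℝ, 0 ≤ r → ‖c r θ‖ = r := by
    intro r θ hr
    rw [hcval, norm_mul, Complex.norm_exp_ofReal_mul_I, mul_one, Complex.norm_real,
      Real.norm_of_nonneg hr]
  have hcc : Continuous (fun p : ℝ × ℝ => c p.1 p.2) := by
    have : (fun p : ℝ × ℝ => c p.1 p.2) =
        fun p : ℝ × ℝ => (p.1 : ℂ) * Complex.exp (p.2 * Complex.I) := by
      funext p; exact hcval _ _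
    rw [this]; fun_prop
  -- derivative in r
  have hdr : ∀ r θ : ℝ, ε ≤ r → r ≤ R → HasDerivAt (fun r : ℝ => Φ (c r θ))
      (Complex.exp (θ * Complex.I) * P (c r θ) +
        starRingEnd ℂ (Complex.exp (θ * Complex.I)) * S (c r θ)) r := by
    intro r θ h1 h2
    have hr : 0 ≤ r := hε.le.trans h1
    have h3 := hΦ (c r θ) (by rw [hnorm r θ hr]; exact h1) (by rw [hnorm r θ hr]; exact h2)
    have h4 : HasDerivAt (fun r : ℝ => c r θ) (Complex.exp (θ * Complex.I)) r := by
      have : (fun r : ℝ => c r θ) = fun r : ℝ => (r : ℂ) * Complex.exp (θ * Complex.I) := by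
        funext r; exact hcval _ _
      rw [this]
      have h5 := (Complex.ofRealCLM.hasDerivAt (x := r)).mul_const (Complex.exp (θ * Complex.I))
      simpa using h5
    have h6 := h3.comp_hasDerivAt r h4
    refine h6.congr_deriv ?_
    rw [wd_apply]; ring
  -- derivative in θ
  have hdθ : ∀ r θ : ℝ, ε ≤ r → r ≤ R → HasDerivAt (fun θ : ℝ => Φ (c r θ))
      (Complex.I * (c r θ * P (c r θ) - starRingEnd ℂ (c r θ) * S (c r θ))) θ := by
    intro r θ h1 h2
    have hr : 0 ≤ r := hε.le.trans h1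
    have h3 := hΦ (c r θ) (by rw [hnorm r θ hr]; exact h1) (by rw [hnorm r θ hr]; exact h2)
    have h4 : HasDerivAt (fun θ : ℝ => c r θ) (c r θ * Complex.I) θ := by
      exact hasDerivAt_circleMap 0 r θ
    have h6 := h3.comp_hasDerivAt θ h4
    refine h6.congr_deriv ?_
    rw [wd_apply, map_mul, Complex.conj_I]; ring
  -- continuity on the rectangle
  have hmaps : ∀ p ∈ Icc ε R ×ˢ Icc (0 : ℝ) (2 * Real.pi),
      c p.1 p.2 ∈ {z : ℂ | ε ≤ ‖z‖ ∧ ‖z‖ ≤ R} := by
    rintro ⟨r, θ⟩ ⟨⟨h1, h2⟩, -⟩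
    show ε ≤ ‖c r θ‖ ∧ ‖c r θ‖ ≤ R
    rw [hnorm r θ (hε.le.trans h1)]
    exact ⟨h1, h2⟩
  have hPc : ContinuousOn (fun p : ℝ × ℝ => P (c p.1 p.2)) (Icc ε R ×ˢ Icc (0 : ℝ) (2 * Real.pi)) :=
    hP.comp hcc.continuousOn hmaps
  have hSc : ContinuousOn (fun p : ℝ × ℝ => S (c p.1 p.2)) (Icc ε R ×ˢ Icc (0 : ℝ) (2 * Real.pi)) :=
    hS.comp hcc.continuousOn hmaps
  set F : ℝ × ℝ → ℂ := fun p => Complex.exp (p.2 * Complex.I) * P (c p.1 p.2) +
        starRingEnd ℂ (Complex.exp (p.2 * Complex.I)) * S (c p.1 p.2) with hF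
  have hFc : ContinuousOn F (Icc ε R ×ˢ Icc (0 : ℝ) (2 * Real.pi)) := by
    have e1 : Continuous (fun p : ℝ × ℝ => Complex.exp (p.2 * Complex.I)) := by fun_prop
    have e2 : Continuous (fun p : ℝ × ℝ => starRingEnd ℂ (Complex.exp (p.2 * Complex.I))) :=
      Complex.continuous_conj.comp e1
    exact (e1.continuousOn.mul hPc).add (e2.continuousOn.mul hSc)
  have hpi : (0 : ℝ) ≤ 2 * Real.pi := by positivity
  have hθslice : ∀ r ∈ Icc ε R, ∀ G : ℝ × ℝ → ℂ,
      ContinuousOn G (Icc ε R ×ˢ Icc (0 : ℝ) (2 * Real.pi)) →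
      IntervalIntegrable (fun θ => G (r, θ)) volume 0 (2 * Real.pi) := by
    intro r hr G hG
    apply ContinuousOn.intervalIntegrable
    rw [uIcc_of_le hpi]
    exact hG.comp (by fun_prop) (fun θ hθ => ⟨hr, hθ⟩)
  -- step 1
  have step1 : ∀ r ∈ Icc ε R, (∫ θ in (0 : ℝ)..(2 * Real.pi),
      2 * circleMap 0 r θ * P (circleMap 0 r θ)) / r =
      ∫ θ in (0 : ℝ)..(2 * Real.pi), F (r, θ) := by
    intro r hr
    have hr0 : 0 < r := hε.trans_le hr.1
    have hr0' : (r : ℂ) ≠ 0 := by exact_mod_cast hr0.ne'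
    have hzP : ContinuousOn (fun p : ℝ × ℝ => c p.1 p.2 * P (c p.1 p.2) -
        starRingEnd ℂ (c p.1 p.2) * S (c p.1 p.2)) (Icc ε R ×ˢ Icc (0 : ℝ) (2 * Real.pi)) :=
      (hcc.continuousOn.mul hPc).sub ((Complex.continuous_conj.comp hcc).continuousOn.mul hSc)
    have hzero : ∫ θ in (0 : ℝ)..(2 * Real.pi),
        (Complex.I * (c r θ * P (c r θ) - starRingEnd ℂ (c r θ) * S (c r θ))) = 0 := by
      rw [intervalIntegral.integral_eq_sub_of_hasDerivAt (f := fun θ : ℝ => Φ (c r θ))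
        (fun θ _ => hdθ r θ hr.1 hr.2)]
      · have : c r (2 * Real.pi) = c r 0 := by
          rw [hcval, hcval]; push_cast
          rw [Complex.exp_two_pi_mul_I]; simp
        simp only [this, sub_self]
      · exact (hθslice r hr _ hzP).const_mul Complex.I
    have hzero' : ∫ θ in (0 : ℝ)..(2 * Real.pi),
        (c r θ * P (c r θ) - starRingEnd ℂ (c r θ) * S (c r θ)) = 0 := by
      rw [intervalIntegral.integral_const_mul] at hzero
      exact (mul_eq_zero.mp hzero).resolve_left Complex.I_ne_zero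
    have e3 : ∫ θ in (0 : ℝ)..(2 * Real.pi), 2 * circleMap 0 r θ * P (circleMap 0 r θ) =
        ∫ θ in (0 : ℝ)..(2 * Real.pi), ((r : ℂ) * F (r, θ) +
          (c r θ * P (c r θ) - starRingEnd ℂ (c r θ) * S (c r θ))) := by
      apply intervalIntegral.integral_congr
      intro θ _
      simp only [hF]
      have h7 : circleMap 0 r θ = c r θ := rfl
      rw [h7]
      have h8 : starRingEnd ℂ (c r θ) = (r : ℂ) * starRingEnd ℂ (Complex.exp (θ * Complex.I)) := by
        rw [hcval, map_mul, Complex.conj_ofReal]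
      rw [h8]
      have h9 := hcval r θ
      linear_combination (P (c r θ)) * h9
    rw [e3, intervalIntegral.integral_add, hzero', intervalIntegral.integral_const_mul]
    · field_simp
      simp
    · exact (hθslice r hr _ hFc).const_mul (r : ℂ)
    · exact hθslice r hr _ hzP
  have e1 : ∫ r in ε..R, (∫ θ in (0 : ℝ)..(2 * Real.pi),
      2 * circleMap 0 r θ * P (circleMap 0 r θ)) / r =
      ∫ r in ε..R, ∫ θ in (0 : ℝ)..(2 * Real.pi), F (r, θ) := by
    apply intervalIntegral.integral_congr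
    intro r hr
    rw [uIcc_of_le hεR.le] at hr
    exact step1 r hr
  rw [e1]
  -- Fubini
  have hint : IntegrableOn F (Ioc ε R ×ˢ Ioc (0 : ℝ) (2 * Real.pi))
      ((volume : Measure ℝ).prod (volume : Measure ℝ)) := by
    have h1 : IntegrableOn F (Icc ε R ×ˢ Icc (0 : ℝ) (2 * Real.pi))
      ((volume : Measure ℝ).prod (volume : Measure ℝ)) :=
      hFc.integrableOn_compact (isCompact_Icc.prod isCompact_Icc)
    exact h1.mono_set (prod_mono Ioc_subset_Icc_self Ioc_subset_Icc_self)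
  have e2 : ∫ r in ε..R, ∫ θ in (0 : ℝ)..(2 * Real.pi), F (r, θ) =
      ∫ θ in (0 : ℝ)..(2 * Real.pi), ∫ r in ε..R, F (r, θ) := by
    simp only [intervalIntegral.integral_of_le hεR.le, intervalIntegral.integral_of_le hpi]
    refine integral_integral_swap (f := fun r θ => F (r, θ)) ?_
    have : Function.uncurry (fun r θ : ℝ => F (r, θ)) = F := by
      funext p; rfl
    rw [this, Measure.prod_restrict]
    exact hint
  rw [e2]
  apply intervalIntegral.integral_congr
  intro θ hθ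
  rw [uIcc_of_le hpi] at hθ
  show ∫ r in ε..R, F (r, θ) = _
  have h1 : ∀ r ∈ uIcc ε R, HasDerivAt (fun r : ℝ => Φ (c r θ)) (F (r, θ)) r := by
    intro r hr
    rw [uIcc_of_le hεR.le] at hr
    exact hdr r θ hr.1 hr.2
  rw [intervalIntegral.integral_eq_sub_of_hasDerivAt h1]
  apply ContinuousOn.intervalIntegrable
  rw [uIcc_of_le hεR.le]
  exact hFc.comp (by fun_prop) (fun r hr => ⟨hr, hθ⟩)

end Pool.Agent.Lib.MP_7682a8_an.KB.H65
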